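import Mathlib
import Pool.Agent.Y240.KF.Stm

/-! The number of automorphisms of a graph of maximum degree `Δ` (project KF, job AUT). -/

set_option autoImplicit false

namespace Pool.Agent.Y815.KF

open Finset
open scoped Classical

section

variable {V : Type} [Fintype V] (H : SimpleGraph V) (Δ : ℕ)

instance finAut : Finite (H ≃g H) :=
  Finite.of_injective (fun f : H ≃g H => (f : V → V)) fun _ _ h => RelIso.coe_fn_injective h

/-- automorphisms with prescribed values on a set which meets all components -/
theorem card_fix [Fintype (H ≃g H)] (hΔ : ∀ v, (univ.filter fun w => H.Adj v w).card ≤ Δ)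
    (n : ℕ) : ∀ S : Finset V, Fintype.card V = S.card + n → (∀ v, ∃ s ∈ S, H.Reachable s v) →
    ∀ g : V → V, (univ.filter fun f : H ≃g H => ∀ s ∈ S, f s = g s).card ≤ Δ ^ n := by
  induction n with
  | zero =>
    intro S hS _ g
    rw [pow_zero, card_le_one]
    intro f hf f' hf'
    rw [mem_filter] at hf hf'
    have hSu : S = univ := by
      rw [← card_eq_iff_eq_univ]
      exact hS.symm
    apply RelIso.ext
    intro v
    rw [hf.2 v (hSu ▸ mem_univ v), hf'.2 v (hSu ▸ mem_univ v)]
  | succ n ih =>
    intro S hS hreach g
    obtain ⟨v, hv⟩ : ∃ v, v ∉ S := by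
      by_contra hno
      push Not at hno
      have : S = univ := by
        ext x
        exact ⟨fun _ => mem_univ _, fun _ => hno x⟩
      rw [this, card_univ] at hS
      omega
    obtain ⟨s, hs, ⟨p⟩⟩ := hreach v
    obtain ⟨d, _, hd1, hd2⟩ := p.exists_boundary_dart (S : Set V) hs hv
    have hd1' : d.fst ∈ S := hd1
    have hd2' : d.snd ∉ S := hd2
    have hsub : (univ.filter fun f : H ≃g H => ∀ s ∈ S, f s = g s) ⊆
        (univ.filter fun y => H.Adj (g d.fst) y).biUnion fun y =>
          univ.filter fun f : H ≃g H => ∀ s ∈ insert d.snd S, f s = Function.update g d.snd y s := by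
      intro f hf
      rw [mem_filter] at hf
      rw [mem_biUnion]
      refine ⟨f d.snd, ?_, ?_⟩
      · rw [mem_filter]
        refine ⟨mem_univ _, ?_⟩
        rw [← hf.2 d.fst hd1']
        exact f.map_adj_iff.2 d.adj
      · rw [mem_filter]
        refine ⟨mem_univ _, fun x hx => ?_⟩
        rcases mem_insert.1 hx with rfl | hx
        · rw [Function.update_self]
        · have hne : x ≠ d.snd := by
            rintro rfl
            exact hd2' hx
          rw [Function.update_of_ne hne]
          exact hf.2 x hx
    refine (card_le_card hsub).trans ?_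
    refine (card_biUnion_le_card_mul _ _ (Δ ^ n) fun y _ => ?_).trans ?_
    · refine ih (insert d.snd S) ?_ (fun v => ?_) _
      · rw [card_insert_of_notMem hd2']
        omega
      · obtain ⟨s', hs', h'⟩ := hreach v
        exact ⟨s', mem_insert_of_mem hs', h'⟩
    · rw [pow_succ, mul_comm]
      exact Nat.mul_le_mul_left _ (hΔ _)

theorem card_aut (hΔ : ∀ v, (univ.filter fun w => H.Adj v w).card ≤ Δ) :
    Nat.card (H ≃g H) ≤ Fintype.card V ^ Nat.card H.ConnectedComponent
      * Δ ^ (Fintype.card V - Nat.card H.ConnectedComponent) := by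
  have _ : Fintype (H ≃g H) := Fintype.ofFinite _
  have _ : Finite H.ConnectedComponent := Quot.finite _
  have _ : Fintype H.ConnectedComponent := Fintype.ofFinite _
  let R : Finset V := univ.image fun C : H.ConnectedComponent => C.out
  have hout : Function.Injective fun C : H.ConnectedComponent => C.out := by
    intro C C' h
    have h1 : Quot.mk _ C.out = C := Quot.out_eq C
    have h2 : Quot.mk _ C'.out = C' := Quot.out_eq C'
    rw [← h1, ← h2]
    exact congrArg _ h
  have hR : R.card = Nat.card H.ConnectedComponent := by
    rw [card_image_of_injective _ hout, card_univ, Nat.card_eq_fintype_card]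
  have hreach : ∀ v, ∃ s ∈ R, H.Reachable s v := by
    intro v
    refine ⟨(H.connectedComponentMk v).out, mem_image_of_mem _ (mem_univ _), ?_⟩
    exact SimpleGraph.ConnectedComponent.exact (Quot.out_eq _)
  have hcard : Fintype.card V = R.card + (Fintype.card V - R.card) := by
    have := card_le_univ R
    omega
  rw [Nat.card_eq_fintype_card, ← card_univ (α := H ≃g H), ← hR]
  have hsub : (univ : Finset (H ≃g H)) ⊆ (univ : Finset (R → V)).biUnion fun h =>
      univ.filter fun f : H ≃g H => ∀ s ∈ R, f s = (fun x => if hx : x ∈ R then h ⟨x, hx⟩ else x) s := by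
    intro f _
    rw [mem_biUnion]
    refine ⟨fun x => f x.1, mem_univ _, ?_⟩
    rw [mem_filter]
    refine ⟨mem_univ _, fun s hs => ?_⟩
    simp only [dif_pos hs]
  refine (card_le_card hsub).trans ?_
  refine (card_biUnion_le_card_mul _ _ (Δ ^ (Fintype.card V - R.card)) fun h _ =>
    card_fix H Δ hΔ _ R hcard hreach _).trans ?_
  rw [card_univ, Fintype.card_fun, Fintype.card_coe]

end

open Pool.Agent.Y240.KF in
theorem aut : StAut := by
  intro V _ H Δ _ hΔ
  refine card_aut H Δ fun v => ?_
  have h1 := hΔ v
  rw [← SimpleGraph.card_neighborFinset_eq_degree] at h1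
  have h2 : (univ.filter fun w => H.Adj v w) = H.neighborFinset v := by
    ext w
    simp
  rw [h2]
  exact h1

end Pool.Agent.Y815.KF
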